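import Pool.Agent.N993.WT.Stm

/-!
# Project WT, WIN: the window lemma
-/

set_option autoImplicit false

namespace Pool.Agent.N216.WT

open Pool.Agent.N993.WT

variable {V J S : Type}

lemma flip_flip {X : Type} (y : X × Bool) : flip (flip y) = y := by
  unfold Pool.Agent.N993.WT.flip
  simp

lemma isX_of_letter (A : Dat V J S) (x : Side J S) (v : V) (b : Bool)
    (h : A.letter x = (Sum.inl v, b)) : IsX x := by
  cases x <;> simp_all [Dat.letter, IsX]

lemma nx_lt (A : Dat V J S) (x : Side J S) (s : S) (τ : Bool) (i : ℕ)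
    (h : A.nx x = .lt s τ (i + 1)) : x = .lt s τ i := by
  cases x with
  | base j τ => simp [Dat.nx] at h
  | up j τ k => simp [Dat.nx] at h
  | mid j τ k => simp [Dat.nx] at h
  | dn j τ k =>
    simp only [Dat.nx] at h
    split_ifs at h
  | st s' τ' => simp [Dat.nx] at h
  | lt s' τ' i' =>
    simp only [Dat.nx] at h
    split_ifs at h with h1
    injection h with e1 e2 e3
    rw [e1, e2]
    congr 1
    omega

lemma isQ_of (x : Side J S) (hx : IsX x) (h : ∀ s τ i, x ≠ .lt s τ i) : IsQ x := by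
  cases x with
  | base j τ => trivial
  | up j τ k => exact hx
  | mid j τ k => trivial
  | dn j τ k => exact hx
  | st s' τ' => exact hx
  | lt s' τ' i' => exact absurd rfl (h s' τ' i')

lemma wd_flip (A : Dat V J S) (s : S) (τ : Bool) (x : ℕ) (hx : x < A.ℓ s) :
    A.wd s (!τ) (A.ℓ s - 1 - x) = flip (A.wd s τ x) := by
  cases τ with
  | true =>
    have e : A.ℓ s - 1 - (A.ℓ s - 1 - x) = x := by omega
    simp only [Dat.wd, Bool.not_true, Bool.false_eq_true, if_false, if_true, e]
  | false =>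
    simp only [Dat.wd, Bool.not_false, Bool.false_eq_true, if_false, if_true, flip_flip]

theorem t_win (h1 : S_DEG) (h2 : S_CH) : S_WIN := by
  classical
  intro V J S A N hG μ hμ hPF hℓ d s τ i hd hi
  obtain ⟨-, -, h3⟩ := h1 V J S A N hG
  have h2' := h2 V J S A N hG
  by_contra hcon
  push Not at hcon
  have := N.finD
  obtain ⟨M, hM⟩ : ∃ M, M = 3 * (μ + 1) := ⟨_, rfl⟩
  rw [← hM] at hi hcon
  obtain ⟨D, hD⟩ : ∃ D : ℕ → N.D, D = fun k => (N.nxt ^ k) d := ⟨_, rfl⟩
  obtain ⟨g, hg⟩ : ∃ g : ℕ → N.D, g = fun k => N.opp (D k) := ⟨_, rfl⟩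
  have hDk : ∀ k, D k = (N.nxt ^ k) d := fun k => by rw [hD]
  have hgk : ∀ k, g k = N.opp (D k) := fun k => by rw [hg]
  have hDs : ∀ k, D (k + 1) = N.nxt (D k) := fun k => by
    rw [hDk, hDk, pow_succ', Equiv.Perm.mul_apply]
  have tyd : ∀ k, k < M → N.ty (D k) = .lt s τ (i + k) := by
    intro k
    induction k with
    | zero =>
      intro _
      rw [hDk, pow_zero]
      exact hd
    | succ k ih =>
      intro hk
      rw [hDs, N.ty_nxt, ih (by omega)]
      simp only [Dat.nx]
      rw [if_pos (by omega)]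
      rfl
  have sn : ∀ y, N.σ (N.nxt y) = N.opp y := by
    intro y
    simp [ND.σ]
  have sD : ∀ k, N.σ (D (k + 1)) = g k := by
    intro k
    rw [hDs, sn, hgk]
  have og : ∀ k, N.opp (g k) = D k := by
    intro k
    rw [hgk, N.opp_opp]
  have letg : ∀ k, k < M → A.letter (N.ty (g k)) =
      flip (Sum.inl (A.wd s τ (i + k)).1, (A.wd s τ (i + k)).2) := by
    intro k hk
    rw [hgk, N.letter_opp, tyd k hk]
    rfl
  have gX : ∀ k, k < M → IsX (N.ty (g k)) := by
    intro k hk
    exact isX_of_letter A _ _ _ (letg k hk)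
  have nb : ∀ k, 1 ≤ k → k < M → ∀ y, IsX (N.ty y) → N.σ.SameCycle (D k) y →
      y = D k ∨ y = N.σ (D k) := by
    intro k hk1 hk2 y hy hs
    by_contra hc
    push Not at hc
    rw [hDk] at hs hc
    exact hcon k hk1 hk2 ⟨y, hy, hs, hc.1, hc.2⟩
  have Dne : ∀ k, k + 1 < M → g k ≠ D (k + 1) := by
    intro k hk
    rw [← sD]
    exact (h3 (D (k + 1)) s τ (i + k) (tyd (k + 1) hk)).1
  have exN : ∀ k, ∃ n, 0 < n ∧ (N.σ ^ n) (g k) = D (k + 1) := by
    intro k
    have ho : 0 < orderOf N.σ := orderOf_pos N.σ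
    refine ⟨2 * orderOf N.σ - 1, by omega, ?_⟩
    rw [← sD, ← Equiv.Perm.mul_apply, ← pow_succ]
    have e : 2 * orderOf N.σ - 1 + 1 = orderOf N.σ * 2 := by omega
    rw [e, pow_mul, pow_orderOf_eq_one, one_pow]
    rfl
  -- (a)
  have ha : ∀ k, k + 1 < M → IsQ (N.ty (g k)) → IsQ (N.ty (g (k + 1))) →
      A.letter (N.ty (g (k + 1))) = A.letter (N.ty (g k)) := by
    intro k hk hq1 hq2
    obtain ⟨n0, hn0⟩ : ∃ n0, n0 = Nat.find (exN k) := ⟨_, rfl⟩
    have hsp := Nat.find_spec (exN k)
    have hmin := fun m => Nat.find_min (exN k) (m := m)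
    rw [← hn0] at hsp hmin
    obtain ⟨hpos, hval⟩ := hsp
    obtain ⟨r, rfl⟩ : ∃ r, n0 = r + 1 := ⟨n0 - 1, by omega⟩
    have hX : IsX (N.ty (D (k + 1))) := by
      rw [tyd (k + 1) hk]
      trivial
    have h4 := h2' (g k) r (gX k (by omega)) ?_ (by rw [hval]; exact hX) hq1
      (by rw [hval, ← hgk]; exact hq2)
    · rw [hval, ← hgk] at h4
      exact h4
    · intro j hj0 hjr hx
      have hsc : N.σ.SameCycle (D (k + 1)) ((N.σ ^ j) (g k)) := by
        refine ⟨((j + 1 : ℕ) : ℤ), ?_⟩
        rw [zpow_natCast, pow_succ, Equiv.Perm.mul_apply, sD]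
      rcases nb (k + 1) (by omega) hk _ hx hsc with e | e
      · exact hmin j (by omega) ⟨hj0, e⟩
      · rw [sD] at e
        refine hmin (r + 1 - j) (by omega) ⟨by omega, ?_⟩
        have e2 : r + 1 = (r + 1 - j) + j := by omega
        rw [e2, pow_add, Equiv.Perm.mul_apply, e] at hval
        exact hval
  -- (b)
  have hb : ∀ k s' τ' i', k + 1 < M → N.ty (g k) = .lt s' τ' (i' + 1) →
      N.ty (g (k + 1)) = .lt s' τ' i' := by
    intro k s' τ' i' hk hty
    obtain ⟨h4, h5⟩ := h3 (g k) s' τ' i' hty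
    have hsc : N.σ.SameCycle (D (k + 1)) (N.σ (g k)) := by
      refine ⟨((2 : ℕ) : ℤ), ?_⟩
      rw [zpow_natCast, pow_two, Equiv.Perm.mul_apply, sD]
    rcases nb (k + 1) (by omega) hk _ h5 hsc with e | e
    · have e2 : N.nxt.symm (g k) = g (k + 1) := by
        have e3 : N.opp (N.nxt.symm (g k)) = D (k + 1) := e
        rw [hgk (k + 1), ← e3, N.opp_opp]
      have e4 : g k = N.nxt (g (k + 1)) := by
        rw [← e2, Equiv.apply_symm_apply]
      rw [e4, N.ty_nxt] at hty
      exact nx_lt A _ _ _ _ hty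
    · rw [sD] at e
      exact absurd e h4
  -- (c)
  have hc : ∀ k s' τ' i', k + 1 < M → N.ty (g (k + 1)) = .lt s' τ' i' → i' + 1 < A.ℓ s' →
      N.ty (g k) = .lt s' τ' (i' + 1) := by
    intro k s' τ' i' hk hty hl
    have hy : N.ty (N.nxt (g (k + 1))) = .lt s' τ' (i' + 1) := by
      rw [N.ty_nxt, hty]
      simp only [Dat.nx]
      rw [if_pos hl]
    have hs : N.σ (N.nxt (g (k + 1))) = D (k + 1) := by
      rw [sn, og]
    have hsc : N.σ.SameCycle (D (k + 1)) (N.nxt (g (k + 1))) := by
      refine Equiv.Perm.SameCycle.symm ⟨((1 : ℕ) : ℤ), ?_⟩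
      rw [zpow_natCast, pow_one, hs]
    rcases nb (k + 1) (by omega) hk _ (by rw [hy]; trivial) hsc with e | e
    · exfalso
      apply (h3 _ s' τ' i' hy).1
      rw [hs, e]
    · rw [sD] at e
      rw [← e]
      exact hy
  -- (d)
  have hdd : ∀ k s' τ' i', μ - 1 ≤ k → k ≤ M - μ → N.ty (g k) ≠ .lt s' τ' i' := by
    intro k s' τ' i' hk1 hk2 hty
    have hv : i' < A.ℓ s' := by
      have := N.valid (g k)
      rw [hty] at this
      exact this
    have hkM : k < M := by omega
    have hb' : ∀ t, t ≤ i' → k + t < M → N.ty (g (k + t)) = .lt s' τ' (i' - t) := by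
      intro t
      induction t with
      | zero =>
        intro _ _
        exact hty
      | succ t ih =>
        intro ht1 ht2
        have h4 := ih (by omega) (by omega)
        have e : i' - t = (i' - (t + 1)) + 1 := by omega
        rw [e] at h4
        exact hb (k + t) s' τ' _ (by omega) h4
    have hc' : ∀ t, t ≤ k → i' + t < A.ℓ s' → N.ty (g (k - t)) = .lt s' τ' (i' + t) := by
      intro t
      induction t with
      | zero =>
        intro _ _
        exact hty
      | succ t ih =>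
        intro ht1 ht2
        have h4 := ih (by omega) (by omega)
        have e : k - t = (k - (t + 1)) + 1 := by omega
        rw [e] at h4
        exact hc (k - (t + 1)) s' τ' _ (by omega) h4 (by omega)
    have hls := hℓ s'
    obtain ⟨e, he1, he2, he3, he4⟩ : ∃ e, e ≤ k ∧ i' + e < A.ℓ s' ∧ μ - 1 ≤ i' + e ∧ e ≤ μ - 1 := by
      rcases le_total i' (μ - 1) with h | h
      · exact ⟨μ - 1 - i', by omega, by omega, by omega, by omega⟩
      · exact ⟨0, by omega, by omega, by omega, by omega⟩
    have hgt : ∀ t, t < μ → N.ty (g (k - e + t)) = .lt s' τ' (i' + e - t) := by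
      intro t ht
      rcases le_total t e with h | h
      · have h4 := hc' (e - t) (by omega) (by omega)
        have e1 : k - (e - t) = k - e + t := by omega
        have e2 : i' + (e - t) = i' + e - t := by omega
        rw [e1, e2] at h4
        exact h4
      · have h4 := hb' (t - e) (by omega) (by omega)
        have e1 : k + (t - e) = k - e + t := by omega
        have e2 : i' - (t - e) = i' + e - t := by omega
        rw [e1, e2] at h4
        exact h4
    have hlet : ∀ t, t < μ → A.wd s' (!τ') (A.ℓ s' - 1 - (i' + e) + t) = A.wd s τ (i + (k - e) + t) := by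
      intro t ht
      have e1 : A.ℓ s' - 1 - (i' + e) + t = A.ℓ s' - 1 - (i' + e - t) := by omega
      rw [e1, wd_flip A s' τ' _ (by omega)]
      have h4 := letg (k - e + t) (by omega)
      rw [hgt t ht] at h4
      have e2 : i + (k - e + t) = i + (k - e) + t := by omega
      rw [e2] at h4
      simp only [Dat.letter, Pool.Agent.N993.WT.flip, Prod.mk.injEq, Sum.inl.injEq] at h4
      refine Prod.ext h4.1 ?_
      change (!(A.wd s' τ' (i' + e - t)).2) = _
      rw [h4.2, Bool.not_not]
    by_cases heq : (s', !τ', A.ℓ s' - 1 - (i' + e)) = (s, τ, i + (k - e))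
    · injection heq with q1 q2
      injection q2 with q2 q3
      subst q1
      apply N.red (D (k - e))
      rw [← hgk, tyd (k - e) (by omega)]
      have h4 := hgt 0 (by omega)
      rw [Nat.add_zero, Nat.sub_zero] at h4
      rw [h4]
      simp only [Dat.mirror]
      rw [← q2, Bool.not_not]
      congr 1
      omega
    · obtain ⟨t, ht, hne⟩ := hPF s' (!τ') (A.ℓ s' - 1 - (i' + e)) s τ (i + (k - e)) (by omega)
        (by omega) heq
      exact hne (hlet t ht)
  -- (e)
  have hQ : ∀ k, μ - 1 ≤ k → k ≤ M - μ → IsQ (N.ty (g k)) := by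
    intro k hk1 hk2
    exact isQ_of _ (gX k (by omega)) fun s' τ' i' => hdd k s' τ' i' hk1 hk2
  obtain ⟨t, ht, hne⟩ := hPF s τ (i + (μ - 1)) s τ (i + μ) (by omega) (by omega) (by
    intro h
    injection h with q1 q2
    injection q2 with q2 q3
    omega)
  apply hne
  have h5 := ha (μ - 1 + t) (by omega) (hQ _ (by omega) (by omega)) (hQ _ (by omega) (by omega))
  rw [letg _ (by omega), letg _ (by omega)] at h5
  have e1 : i + (μ - 1 + t + 1) = i + μ + t := by omega
  have e2 : i + (μ - 1 + t) = i + (μ - 1) + t := by omega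
  rw [e1, e2] at h5
  simp only [Pool.Agent.N993.WT.flip, Prod.mk.injEq, Sum.inl.injEq, Bool.not_inj_iff] at h5
  exact Prod.ext h5.1.symm h5.2.symm

end Pool.Agent.N216.WT
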